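import Pool.Agent.H92.EHD.TR

/-!
Board ehd_modules (MP_75a732_an), row RZ: the mean over the group fixing `z_0`.
-/

set_option autoImplicit false

open scoped BigOperators ComplexConjugate ContDiff ComplexOrder
open MeasureTheory Pool.Agent.H92.EQ Pool.Agent.H92.EHD

namespace Pool.Agent.H1.EHD

theorem cut_all {k : ℕ} (X : Fin (k + 1) → Fin (k + 1) → ℂ) : cut (k + 1) X = X := by
  unfold cut row0
  have h : (fun i : Fin (k + 1) => if (i : ℕ) < k + 1 then X 0 i else 0) = X 0 := by
    funext i
    rw [if_pos i.isLt]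
  rw [h, Function.update_eq_self]

/-- closed forms of bidegree `(0,0)` are constant -/
theorem const_form (hW0 : T_W0) {k : ℕ} (S : Form (Fin (k + 1)) 0) (hS : ProjForm S) :
    ∃ r : ℝ, 0 ≤ r ∧ ∀ z : Fin (k + 1) → ℂ, z ≠ 0 → ∀ I J, S z I J = (r : ℂ) := by
  set f : (Fin (k + 1) → ℂ) → ℂ := fun z => S z default default with hf
  have hd : DifferentiableOn ℝ f {0}ᶜ :=
    (hS.cp.smooth default default).differentiableOn (by simp)
  have hc : ({0}ᶜ : Set (Fin (k + 1) → ℂ)).EqOn (fderiv ℝ f) 0 := by
    intro z hz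
    have h1 : ∀ a, wd a f z = 0 := by
      intro a
      have h := hS.cp.closedL z hz (fun _ => a) default
      rw [Fin.sum_univ_one] at h
      have h3 : (fun w => S w ((fun _ : Fin 1 => a) ∘ (0 : Fin 1).succAbove) default) = f := by
        funext w
        exact congrArg (fun I => S w I default) (Subsingleton.elim _ _)
      rw [h3] at h
      simpa using h
    have h2 : ∀ a, wdb a f z = 0 := by
      intro a
      have h := hS.cp.closedR z hz default (fun _ => a)
      rw [Fin.sum_univ_one] at h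
      have h3 : (fun w => S w default ((fun _ : Fin 1 => a) ∘ (0 : Fin 1).succAbove)) = f := by
        funext w
        exact congrArg (fun I => S w default I) (Subsingleton.elim _ _)
      rw [h3] at h
      simpa using h
    refine ContinuousLinearMap.ext fun v => ?_
    rw [hW0 (Fin (k + 1)) f z v]
    simp [h1, h2]
  have hr : 1 < Module.rank ℝ (Fin (k + 1) → ℂ) := by
    rw [← Module.finrank_eq_rank, Module.finrank_pi_fintype]
    simp only [Complex.finrank_real_complex, Finset.sum_const, Finset.card_univ,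
      Fintype.card_fin, smul_eq_mul]
    have : 1 < (k + 1) * 2 := by omega
    exact_mod_cast this
  have hcon := isConnected_compl_singleton_of_one_lt_rank hr (0 : Fin (k + 1) → ℂ)
  have hop : IsOpen ({0}ᶜ : Set (Fin (k + 1) → ℂ)) := isOpen_compl_singleton
  obtain ⟨a, ha⟩ := hop.exists_is_const_of_fderiv_eq_zero hcon.isPreconnected hd hc
  have h1 : (fun _ => 1 : Fin (k + 1) → ℂ) ≠ 0 := by
    intro h
    have := congrFun h 0
    simp at this
  have hp := hS.cp.psd _ h1 (fun _ => 1)
  simp only [Finset.univ_unique, Finset.sum_singleton, map_one, one_mul] at hp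
  have h2 : ∀ I J, S (fun _ => 1) I J = a := by
    intro I J
    rw [Subsingleton.elim I default, Subsingleton.elim J default]
    exact ha _ h1
  rw [h2] at hp
  have h3 := Complex.nonneg_iff.1 hp
  refine ⟨a.re, h3.1, fun z hz I J => ?_⟩
  rw [Subsingleton.elim I default, Subsingleton.elim J default]
  have h4 : S z default default = a := ha z hz
  rw [h4]
  apply Complex.ext
  · simp
  · simp [← h3.2]

theorem pull_zero {k : ℕ} (G : Fin (k + 1) → MvPolynomial (Fin (k + 1)) ℂ)
    (S : Form (Fin (k + 1)) 0) (z : Fin (k + 1) → ℂ) (hz : ev G z ≠ 0)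
    (h : ∀ z : Fin (k + 1) → ℂ, z ≠ 0 → ∀ I J, S z I J = 1) (I J : Fin 0 → Fin (k + 1)) :
    pull G S z I J = 1 := by
  unfold pull
  simp [h _ hz]

theorem mixD_smul {ι : Type} [Fintype ι] [DecidableEq ι] {p m : ℕ} (r : ℂ)
    (S : (Fin p → ι) → (Fin p → ι) → ℂ) (H : Fin m → Matrix ι ι ℂ) :
    mixD (fun I J => r * S I J) H = r * mixD S H := by
  unfold mixD
  rw [Finset.mul_sum]
  refine Finset.sum_congr rfl fun e _ => ?_
  rw [Finset.mul_sum]
  refine Finset.sum_congr rfl fun e' _ => ?_
  ring

theorem Iint_congr {N : ℕ} (hN : 0 < N) (ψ ψ' : (Fin N → ℂ) → ℝ)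
    (h : ∀ z, z ≠ 0 → ψ z = ψ' z) : Iint ψ = Iint ψ' := by
  unfold Iint
  have : Nonempty (Fin N) := ⟨⟨0, hN⟩⟩
  have h0 : ∀ᵐ z : Fin N → ℂ, z ≠ 0 := by
    have h1 : (volume : Measure (Fin N → ℂ)) {0} = 0 := measure_singleton _
    exact compl_mem_ae_iff.2 h1
  refine integral_congr_ae (ae_restrict_of_ae ?_)
  filter_upwards [h0] with z hz
  exact h z hz

theorem ev_cmp_lin {k : ℕ} (A : Matrix (Fin (k + 1)) (Fin (k + 1)) ℂ)
    (Φ : Fin (k + 1) → MvPolynomial (Fin (k + 1)) ℂ) (z : Fin (k + 1) → ℂ) :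
    ev (cmp (lin A) Φ) z = A.mulVec (ev Φ z) := by
  funext i
  unfold ev Pool.Agent.H92.EQ.cmp lin Matrix.mulVec dotProduct
  simp

theorem pf_RZ (hRMV : T_RMV) (hIZ : T_IZ) (hD7 : T_D7) (hL1 : T_L1) (hIA : T_IA)
    (hRTG : T_RTG) (hW0 : T_W0) : T_RZ := by
  intro k p q hpq
  have hom : ∀ w w' : (Fin (k + 1) → ℂ) → ℝ, Pot w → Pot w' → Hom0 (fun z => w z - w' z) := by
    intro w w' hw hw'
    have h1 := (hL1 (k + 1) 1 1 1 (-1) w w').1
      ((hL1 (k + 1) 1 1 1 (-1) w w').2.2.1 hw) ((hL1 (k + 1) 1 1 1 (-1) w' w').2.2.1 hw')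
    have h2 : (fun z => 1 * w z + -1 * w' z) = fun z => w z - w' z := by
      funext z
      ring
    rw [h2] at h1
    have h3 : (1 * 1 + -1 * 1 : ℝ) = 0 := by norm_num
    rw [h3] at h1
    exact ((hL1 (k + 1) 0 0 0 0 (fun z => w z - w' z) w').2.1).2 h1
  have hmass : 0 < mass q (om (k + 1) p) := ((hD7 (k + 1) p).2 q (by omega)).1
  rcases Nat.eq_zero_or_pos p with hp | hp
  · subst hp
    refine ⟨1, one_pos, ?_⟩
    intro D Φ hD hΦ w w' u hw hw' hu S A hA hS hms hlm
    obtain ⟨r, hr, hSr⟩ := const_form hW0 S hS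
    have hr1 : r = 1 := by
      have h1 : mass q S = r * mass q (om (k + 1) 0) := by
        unfold mass pair
        have h2 : ∀ z : Fin (k + 1) → ℂ, z ≠ 0 → 1 * Q S (fun _ : Fin q => ell) z =
            r * (1 * Q (om (k + 1) 0) (fun _ : Fin q => ell) z) := by
          intro z hz
          unfold Q
          have h3 : S z = fun I J => (r : ℂ) * om (k + 1) 0 z I J := by
            funext I J
            rw [hSr z hz]
            simp [om]
          rw [h3, mixD_smul, Complex.re_ofReal_mul]
          ring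
        rw [Iint_congr (by omega) _ _ h2]
        unfold Iint
        rw [integral_const_mul]
      rw [hms] at h1
      have h2 : (r - 1) * mass q (om (k + 1) 0) = 0 := by linarith
      rcases mul_eq_zero.1 h2 with h3 | h3
      · linarith
      · exact absurd h3 hmass.ne'
    have hS1 : ∀ z : Fin (k + 1) → ℂ, z ≠ 0 → ∀ I J, S z I J = 1 := by
      intro z hz I J
      rw [hSr z hz, hr1, Complex.ofReal_one]
    have hom1 : ∀ z : Fin (k + 1) → ℂ, z ≠ 0 → ∀ I J, om (k + 1) 0 z I J = 1 := by
      intro z _ I J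
      rfl
    have ham : ∀ M : Matrix (Fin (k + 1)) (Fin (k + 1)) ℂ, M.det ≠ 0 →
        am (fun z => w z - w' z) Φ S u M =
          pair (fun z => w z - w' z) (pull Φ (om (k + 1) 0)) u := by
      intro M hM
      unfold am pair
      refine Iint_congr (by omega) _ _ fun z hz => ?_
      have h1 : ev Φ z ≠ 0 := fun h => hz (hΦ.nd z h)
      have h2 : ev (cmp (lin M) Φ) z ≠ 0 := by
        rw [ev_cmp_lin]
        intro h
        exact h1 (Matrix.eq_zero_of_mulVec_eq_zero hM h)
      have h3 : pull (cmp (lin M) Φ) S z = pull Φ (om (k + 1) 0) z := by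
        funext I J
        rw [pull_zero _ S z h2 hS1, pull_zero _ _ z h1 hom1]
      unfold Q
      rw [h3]
    have hae : ∀ᵐ X : Fin (k + 1) → Fin (k + 1) → ℂ, (e1 X).det ≠ 0 ∨ k = 0 := by
      rcases Nat.eq_zero_or_pos k with hk | hk
      · exact Filter.Eventually.of_forall fun X => Or.inr hk
      · have hj : (⟨1, by omega⟩ : Fin (k + 1)) ≠ 0 := by
          intro h
          have := congrArg Fin.val h
          simp at this
        filter_upwards [hRTG k ⟨1, by omega⟩ hj] with X hX
        exact Or.inl hX.2.1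
    have hmain : ∫ X : Fin (k + 1) → Fin (k + 1) → ℂ,
        gss X * am (fun z => w z - w' z) Φ S u (e1 X) =
        pair (fun z => w z - w' z) (pull Φ (om (k + 1) 0)) u := by
      rcases Nat.eq_zero_or_pos k with hk | hk
      · subst hk
        have h1 : ∀ X : Fin (0 + 1) → Fin (0 + 1) → ℂ, e1 X = Matrix.of X := by
          intro X
          have h2 : cut (0 + 1) X = X := cut_all X
          exact congrArg Matrix.of h2
        simp_rw [h1]
        exact hIZ (0 + 1) 0 q D Φ hD hΦ _ u (hom w w' hw hw') hu S hS hms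
      · have h1 : ∫ X : Fin (k + 1) → Fin (k + 1) → ℂ,
            gss X * am (fun z => w z - w' z) Φ S u (e1 X) =
            ∫ X : Fin (k + 1) → Fin (k + 1) → ℂ,
            gss X * pair (fun z => w z - w' z) (pull Φ (om (k + 1) 0)) u := by
          refine integral_congr_ae ?_
          filter_upwards [hae] with X hX
          rcases hX with hX | hX
          · simp only [ham _ hX]
          · omega
        rw [h1, integral_mul_const, (hIA (k + 1) 0 S (by omega) hS).1, one_mul]
    rw [hmain, sub_self, abs_zero]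
    have hD' : (0 : ℝ) < D := by exact_mod_cast hD
    positivity
  · obtain ⟨s, rfl⟩ : ∃ s, p = s + 1 := ⟨p - 1, by omega⟩
    obtain ⟨C, hC, hR⟩ := hRMV k s q hpq
    refine ⟨(k + 1) * C / mass q (om (k + 1) (s + 1)), by positivity, ?_⟩
    intro D Φ hD hΦ w w' u hw hw' hu S A hA hS hms hlm
    have hD' : (0 : ℝ) < D := by exact_mod_cast hD
    set B : ℝ := C * (1 + A) * ((D : ℝ) ^ (s + 1) / D) with hB
    have hB0 : 0 ≤ B := by positivity
    have htel : ∀ m : ℕ, m ≤ k →
        |(∫ X : Fin (k + 1) → Fin (k + 1) → ℂ,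
            gss X * am (fun z => w z - w' z) Φ S u (Matrix.of (cut (m + 1) X))) -
          ∫ X : Fin (k + 1) → Fin (k + 1) → ℂ,
            gss X * am (fun z => w z - w' z) Φ S u (Matrix.of (cut 1 X))| ≤ m * B := by
      intro m
      induction m with
      | zero =>
        intro _
        simp
      | succ m ih =>
        intro hm
        have h1 := ih (by omega)
        have hj : (⟨m + 1, by omega⟩ : Fin (k + 1)) ≠ 0 := by
          intro h
          have := congrArg Fin.val h
          simp at this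
        have h2 := hR D Φ hD hΦ w w' u hw hw' hu S A hA hS hms hlm ⟨m + 1, by omega⟩ hj
        have h3 := abs_sub_le
          (∫ X : Fin (k + 1) → Fin (k + 1) → ℂ,
            gss X * am (fun z => w z - w' z) Φ S u (Matrix.of (cut (m + 1 + 1) X)))
          (∫ X : Fin (k + 1) → Fin (k + 1) → ℂ,
            gss X * am (fun z => w z - w' z) Φ S u (Matrix.of (cut (m + 1) X)))
          (∫ X : Fin (k + 1) → Fin (k + 1) → ℂ,
            gss X * am (fun z => w z - w' z) Φ S u (Matrix.of (cut 1 X)))
        have h4 : ((m + 1 : ℕ) : ℝ) * B = m * B + B := by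
          push_cast
          ring
        rw [h4]
        exact h3.trans (by linarith [h2])
    have h5 := htel k le_rfl
    simp_rw [cut_all] at h5
    have h6 := hIZ (k + 1) (s + 1) q D Φ hD hΦ _ u (hom w w' hw hw') hu S hS hms
    rw [h6, abs_sub_comm] at h5
    refine le_trans h5 ?_
    have h7 : (k + 1) * C / mass q (om (k + 1) (s + 1)) * (1 + A) * ((D : ℝ) ^ (s + 1) / D) *
        mass q (om (k + 1) (s + 1)) = (k + 1) * B := by
      rw [hB]
      field_simp
    rw [h7]
    nlinarith

end Pool.Agent.H1.EHD
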